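import Pool.Agent.V5helper47.HM.CORE3a
import Pool.Agent.N748.GC.ED
import Pool.Agent.N748.GC.DIS

set_option autoImplicit false

/-!
# HM/CORE3 : the moments of all orders in almost all windows (helper47)
-/

namespace Pool.Agent.V5helper47.HM.CORE3

open Finset Filter MeasureTheory MonoidAlgebra Topology Complex
open Pool.Agent.N748.GC Pool.Agent.N748.HM

/-- (CORE3) -/
theorem t_CORE3 (hAVG : S_AVG) (hSQ2 : S_SQ2) (hCL : S_CL) (hPRM : S_PRM) : S_CORE3 := by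
  intro α hα θ hθ hαθ D hD ε hε η hη
  obtain ⟨c, hc, hP0⟩ := hPRM
  have hA : α ≤ (⌈α⌉₊ : ℕ) := Nat.le_ceil α
  set A : ℕ := ⌈α⌉₊ with hAdef
  obtain ⟨θ', hθ0, hθ1, hθ2⟩ : ∃ θ' : ℝ, 0 < θ' ∧ α ^ 2 - 1 < θ' ∧ θ' < θ := by
    have h0 : max (α ^ 2 - 1) 0 < θ := max_lt hαθ hθ
    have h1 := le_max_left (α ^ 2 - 1) 0
    have h2 := le_max_right (α ^ 2 - 1) 0
    exact ⟨(max (α ^ 2 - 1) 0 + θ) / 2, by linarith, by linarith, by linarith⟩
  set ε' := min ε 1 with hε'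
  have hε'0 : 0 < ε' := lt_min hε one_pos
  have hε'1 : ε' ≤ 1 := min_le_right _ _
  have hε'2 : ε' ≤ ε := min_le_left _ _
  set η' := min η 1 with hη'
  have hη'0 : 0 < η' := lt_min hη one_pos
  have hη'1 : η' ≤ 1 := min_le_right _ _
  have hη'2 : η' ≤ η := min_le_left _ _
  set e := ε' * η' / 80 with he
  have he0 : 0 < e := by positivity
  obtain ⟨zA, hzA⟩ := hAVG α hα c hc θ' hθ0 hθ1 e he0
  obtain ⟨zS, RS, hzS⟩ := hSQ2 α hα c hc e he0
  obtain ⟨zC, hzC⟩ := hCL A α hα hA (η' / 8) (by positivity)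
  set z : ℕ := max (max zA zS) (max zC 1000) with hz
  have hz1 : zA ≤ z := le_trans (le_max_left _ _) (le_max_left _ _)
  have hz2 : zS ≤ z := le_trans (le_max_right _ _) (le_max_left _ _)
  have hz3 : zC ≤ z := le_trans (le_max_left _ _) (le_max_right _ _)
  have hz4 : 1000 ≤ z := le_trans (le_max_right _ _) (le_max_right _ _)
  obtain ⟨RA, lamA, δA, hδA, hδA16, hAV⟩ := hzA z hz1
  obtain ⟨RC, x0, δC, ηC, C, hδC, hδC16, hηC, hC, hCL'⟩ := hzC z hz3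
  have hFc : Continuous fun p : UnitAddTorus (Sm z) × UnitAddTorus (Sm z) => M0 α (Sm z) (p.2 + p.1) :=
    (ED.M0_cont α z).comp (continuous_snd.add continuous_fst)
  have hSQ := hzS z hz2 (UnitAddTorus (Sm z)) (fun p => M0 α (Sm z) (p.2 + p.1)) hFc
    (fun p => (ED.M0_pos α z _).le) e he0
  obtain ⟨lam, δP, hlam, hδP, hδP16, hPR⟩ := hP0 A D (lt_of_lt_of_le hθ hD) z hz4 (max (max RA RS) RC)
    (max x0 lamA) ηC C hηC hC
  obtain ⟨d1, hd1, hd1'⟩ := small_pow (κ := θ - θ') (e := ε' * η' / 40) (by linarith) (by positivity)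
  obtain ⟨d2, hd2, hd2'⟩ := small_pow (κ := D) (e := ε' / 10) (lt_of_lt_of_le hθ hD) (by positivity)
  refine ⟨lam, min (min δP δA) (min δC (min d1 d2)), hlam, by positivity,
    (min_le_left _ _).trans ((min_le_left _ _).trans hδP16), ?_⟩
  filter_upwards [hAV, hSQ, hPR, ev_Xl, ev_a0 (e := ε' / 10) (by positivity), ev_log D (e := ε' / 10) (by positivity),
    eventually_ge_atTop (1:ℝ)] with X hX1 hX2 hX3 hX4 hX5 hX6 hX7
  intro δ hδ hδ0 hlamδ H hH1 hH2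
  have hδ1 : δ ≤ δP := hδ0.trans ((min_le_left _ _).trans (min_le_left _ _))
  have hδ2 : δ ≤ δA := hδ0.trans ((min_le_left _ _).trans (min_le_right _ _))
  have hδ3 : δ ≤ δC := hδ0.trans ((min_le_right _ _).trans (min_le_left _ _))
  have hδ4 : δ ≤ d1 := hδ0.trans ((min_le_right _ _).trans ((min_le_right _ _).trans (min_le_left _ _)))
  have hδ5 : δ ≤ d2 := hδ0.trans ((min_le_right _ _).trans ((min_le_right _ _).trans (min_le_right _ _)))
  have hδ16 : δ ≤ 1 / 16 := hδ1.trans hδP16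
  have hX0 : 0 < X := by linarith
  obtain ⟨Rs, J, K, Kq, y, a, v, hRs, hSP, hlog, hx0, hv, hsum, hK, hKq, hlen, hvol⟩ := hX3 δ hδ hδ1 hlamδ
  have hR1 : RA ≤ Rs := le_trans (le_trans (le_max_left _ _) (le_max_left _ _)) hRs
  have hR2 : RS ≤ Rs := le_trans (le_trans (le_max_right _ _) (le_max_left _ _)) hRs
  have hR3 : RC ≤ Rs := le_trans (le_max_right _ _) hRs
  have hx1 : x0 ≤ δ * Real.log y := (le_max_left _ _).trans hx0
  have hx2 : lamA ≤ δ * Real.log y := (le_max_right _ _).trans hx0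
  -- the functions
  set f : ℝ → ℝ := fun u => mz α z u * WP α z Rs y J δ u with hf
  set q : ℝ → ℝ := fun u => ‖ec (1 / 2 + δ + u * I) (GQ α z y Kq)‖ ^ 2 with hq
  have hmzc : Continuous (mz α z) := WIN.mz_cont α z
  have hfc : Continuous f := hmzc.mul (WP_cont α z Rs y J hδ.le)
  have hqc : Continuous q := (ec_cont _ hδ.le).norm.pow 2
  have hZc : Continuous (Zn α δ) := WIN.Zn_cont hα hδ hδ16
  have hf0 : ∀ u, 0 ≤ f u := fun u => mul_nonneg (ED.M0_pos α z _).le (WP_nonneg _ _ _ _ _ _ _)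
  set T := δ ^ (-θ') with hT
  have hT0 : 0 < T := Real.rpow_pos_of_pos hδ _
  have hT1 : 1 / T = δ ^ θ' := by rw [hT, Real.rpow_neg hδ.le, one_div, inv_inv]
  have hδle1 : δ ≤ 1 := by linarith
  have hTH : T ≤ H := by
    refine le_trans ?_ hH1
    exact Real.rpow_le_rpow_of_exponent_ge hδ hδle1 (by linarith)
  have hH0 : 0 < H := lt_of_lt_of_le hT0 hTH
  have hρ : T / H ≤ ε' * η' / 40 := by
    have e1 : T / H ≤ T / δ ^ (-θ) := div_le_div_of_nonneg_left hT0.le (Real.rpow_pos_of_pos hδ _) hH1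
    have e2 : T / δ ^ (-θ) = δ ^ (θ - θ') := by
      rw [hT, ← Real.rpow_sub hδ]; congr 1; ring
    rw [e2] at e1
    exact e1.trans (hd1' δ hδ hδ4)
  have hHX : H ≤ ε' / 10 * X := by
    refine hH2.trans (le_trans ?_ hX6)
    rw [Real.rpow_neg hδ.le, ← Real.inv_rpow hδ.le, ← one_div]
    exact Real.rpow_le_rpow (by positivity) hlog (by linarith)
  have h1 : ∫ t in Xl X..X, |(1 / T) * (∫ u in (0:ℝ)..T, f (t + u)) - 1| ≤ e * X := by
    rw [hT1]
    exact hX1 δ hδ hδ2 hlog Rs J y hR1 hSP hx2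
  have hE : ∀ k : UnitAddTorus (Sm z), ∫ x, M0 α (Sm z) (x + k) ∂(HP (Sm z)) = 1 := by
    intro k
    rw [ED.transl (M0 α (Sm z)) k, ED.integral_M0]
  have h2 : ∀ s, ∫ t in Xl X..X, f (t + s) * |q (t + s) - 1| ≤ 2 * e * X := by
    intro s
    have h := hX2 Rs J Kq y hR2 hSP hlen δ hδ.le (pt (Sm z) s) s
    simp only [hE] at h
    refine le_trans (le_of_eq ?_) (h.trans (le_of_eq (by ring)))
    refine intervalIntegral.integral_congr fun t _ => ?_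
    simp only [hf, hq, mz]
    rw [DIS.pt_add]
    push_cast
    ring
  set Bad : Set ℝ := {t : ℝ | X ^ ((9:ℝ) / 10) + 1 ≤ t ∧ t ≤ X ∧ ∃ u : ℝ, t ≤ u ∧ u ≤ t + δ ^ (-D) ∧
      ¬ (G1 A z Rs y J δ u ∧ ‖ec (1 / 2 + δ + u * I) (xc (PP z y))‖ ≤ a ∧ ‖Ez z y K (1 / 2 + δ + u * I)‖ ≤ ηC)}
    with hBad
  have h3 : ∀ t, X ^ ((9:ℝ) / 10) + 1 ≤ t → t ≤ X → t ∉ Bad → ∀ u, t ≤ u → u ≤ t + H →
      |Zn α δ u - f u * q u| ≤ η' / 8 * (f u * q u) := by
    intro t ht1 ht2 ht3 u hu1 hu2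
    have hgood : G1 A z Rs y J δ u ∧ ‖ec (1 / 2 + δ + u * I) (xc (PP z y))‖ ≤ a ∧
        ‖Ez z y K (1 / 2 + δ + u * I)‖ ≤ ηC := by
      by_contra hcon
      exact ht3 ⟨ht1, ht2, u, hu1, by linarith, hcon⟩
    have h := hCL' δ hδ hδ3 Rs J K Kq y hSP.zy hSP.bJ hR3 hx1 u a v hgood.2.1 hsum hK hKq hgood.1 hgood.2.2
    simp only [hf, hq]
    rw [mul_assoc]
    exact h
  have h4 : volume Bad ≤ ENNReal.ofReal (ε' / 10 * X) := by
    refine hvol.trans (ENNReal.ofReal_le_ofReal ?_)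
    exact mul_le_mul_of_nonneg_right (hd2' δ hδ hδ5) hX0.le
  have hX9 : 0 ≤ X ^ ((9:ℝ) / 10) := Real.rpow_nonneg hX0.le _
  have ha2 : X ^ ((9:ℝ) / 10) + 1 + H ≤ X := by
    have : ε' / 10 * X ≤ 1 / 10 * X := mul_le_mul_of_nonneg_right (by linarith) hX0.le
    linarith
  have hmain := abstract hfc hqc hZc hf0 (X := X) (Xl := Xl X) (a0 := X ^ ((9:ℝ) / 10) + 1) (H := H) (T := T)
    (η := η') (ε := ε' / 10) (ρ := ε' * η' / 40) (ε1 := e) (ε2 := 2 * e) (ε3 := ε' / 10) hX0 hT0 hTH hη'0 hη'1 hX4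
    (by linarith) ha2 (by positivity) hX5 hHX he0.le (by positivity) (by positivity) hρ Bad h1 h2 h3 h4
  refine (measure_mono ?_).trans (hmain.trans (ENNReal.ofReal_le_ofReal ?_))
  · rintro t ⟨ht0, ht1, ht2⟩
    exact ⟨ht0, ht1, hη'2.trans ht2⟩
  · refine mul_le_mul_of_nonneg_right ?_ hX0.le
    have e1 : 2 * (ε' / 10) + ε' / 10 + (2 * e + ε' * η' / 40) / (η' / 4) + 2 * e / (η' / 4) = 6 / 10 * ε' := by
      rw [he]
      field_simp
      ring
    rw [e1]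
    linarith

end Pool.Agent.V5helper47.HM.CORE3
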