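import Pool.Agent.N748.HM.Stm
import Pool.Agent.N748.GC.WIN
import Pool.Agent.N748.GC.MV

set_option autoImplicit false

/-!
# HM/CORE3, first part: windows and exceptional sets (helper47)
-/

namespace Pool.Agent.V5helper47.HM.CORE3

open Finset Filter MeasureTheory MonoidAlgebra Topology Complex
open Pool.Agent.N748.GC Pool.Agent.N748.HM

/-! ### real analysis -/

lemma swap {F : ℝ → ℝ → ℝ} (hF : Continuous (Function.uncurry F)) (a b c d : ℝ) :
    ∫ x in a..b, ∫ y in c..d, F x y = ∫ y in c..d, ∫ x in a..b, F x y := by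
  refine intervalIntegral_intervalIntegral_swap ?_
  have h1 : IntegrableOn (Function.uncurry F) (Set.uIcc a b ×ˢ Set.uIcc c d) volume :=
    hF.continuousOn.integrableOn_compact ((isCompact_uIcc (a := a) (b := b)).prod (isCompact_uIcc (a := c) (b := d)))
  exact h1.mono_set (Set.prod_mono Set.uIoc_subset_uIcc Set.uIoc_subset_uIcc)

/-- Markov's inequality on an interval -/
lemma markov {f : ℝ → ℝ} (hf : Continuous f) (hf0 : ∀ t, 0 ≤ f t) {a b c E : ℝ} (hab : a ≤ b) (hc : 0 < c)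
    (hE : ∫ t in a..b, f t ≤ E) :
    volume {t : ℝ | a < t ∧ t ≤ b ∧ c ≤ f t} ≤ ENNReal.ofReal (E / c) := by
  have h1 : Integrable f (volume.restrict (Set.Ioc a b)) := (hf.intervalIntegrable a b).1
  have h2 := mul_meas_ge_le_integral_of_nonneg (μ := volume.restrict (Set.Ioc a b))
    (Eventually.of_forall hf0) h1 c
  rw [intervalIntegral.integral_of_le hab] at hE
  have hm : MeasurableSet {t : ℝ | c ≤ f t} := (isClosed_le continuous_const hf).measurableSet
  have h3 : volume {t : ℝ | a < t ∧ t ≤ b ∧ c ≤ f t} =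
      (volume.restrict (Set.Ioc a b)) {t | c ≤ f t} := by
    rw [Measure.restrict_apply hm]
    congr 1
    ext t
    simp only [Set.mem_setOf_eq, Set.mem_inter_iff, Set.mem_Ioc]
    tauto
  rw [h3]
  have h4 : (volume.restrict (Set.Ioc a b)) {t | c ≤ f t} ≠ ⊤ := measure_ne_top _ _
  rw [← ENNReal.ofReal_toReal h4]
  refine ENNReal.ofReal_le_ofReal ?_
  rw [le_div_iff₀ hc, mul_comm]
  exact h2.trans hE

/-- a window of length `H` and windows of length `T` -/
lemma split {f : ℝ → ℝ} (hf : Continuous f) (hf0 : ∀ t, 0 ≤ f t) {T H : ℝ} (hT : 0 < T) (hH : 0 < H) (t : ℝ) :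
    |(∫ u in t..(t + H), f u) - H| ≤
      T * (∑ k ∈ range (⌊H / T⌋₊ + 1), |(1 / T) * (∫ u in (0:ℝ)..T, f (t + k * T + u)) - 1| + 1) := by
  set n := ⌊H / T⌋₊ with hn
  have hn1 : (n:ℝ) * T ≤ H := by
    have := Nat.floor_le (show 0 ≤ H / T by positivity)
    rw [← hn, le_div_iff₀ hT] at this
    exact this
  have hn2 : H < (n + 1) * T := by
    have := Nat.lt_floor_add_one (H / T)
    rw [← hn, div_lt_iff₀ hT] at this
    exact this
  have hi : ∀ a b, IntervalIntegrable f volume a b := fun a b => hf.intervalIntegrable a b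
  have hg : ∀ k : ℕ, ∫ u in (t + (k:ℝ) * T)..(t + ((k + 1 : ℕ) : ℝ) * T), f u =
      ∫ u in (0:ℝ)..T, f (t + k * T + u) := by
    intro k
    have h := intervalIntegral.integral_comp_add_left (a := 0) (b := T) f (t + k * T)
    rw [h]
    have e1 : t + (k:ℝ) * T + 0 = t + k * T := by ring
    have e2 : t + (k:ℝ) * T + T = t + ((k + 1 : ℕ) : ℝ) * T := by push_cast; ring
    rw [e1, e2]
  have hG0 : ∀ k : ℕ, 0 ≤ ∫ u in (0:ℝ)..T, f (t + k * T + u) := fun k =>
    intervalIntegral.integral_nonneg hT.le fun u _ => hf0 _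
  have hsum := intervalIntegral.sum_integral_adjacent_intervals (f := f) (μ := volume)
    (a := fun k : ℕ => t + (k:ℝ) * T) (n := n) (fun k _ => hi _ _)
  simp only [Nat.cast_zero, zero_mul, add_zero] at hsum
  have hR : ∫ u in t..(t + H), f u = (∫ u in t..(t + n * T), f u) + ∫ u in (t + n * T)..(t + H), f u :=
    (intervalIntegral.integral_add_adjacent_intervals (hi _ _) (hi _ _)).symm
  set R := ∫ u in (t + n * T)..(t + H), f u with hRdef
  have hR0 : 0 ≤ R := intervalIntegral.integral_nonneg (by linarith) fun u _ => hf0 _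
  have hR1 : R ≤ ∫ u in (0:ℝ)..T, f (t + n * T + u) := by
    rw [← hg n]
    refine intervalIntegral.integral_mono_interval le_rfl (by linarith) ?_
      (Eventually.of_forall fun u => hf0 u) (hi _ _)
    push_cast
    linarith
  have hab : ∀ k : ℕ, T * |(1 / T) * (∫ u in (0:ℝ)..T, f (t + k * T + u)) - 1| =
      |(∫ u in (0:ℝ)..T, f (t + k * T + u)) - T| := by
    intro k
    rw [← abs_of_pos hT, ← abs_mul, abs_of_pos hT]
    congr 1
    field_simp
  rw [hR, ← hsum, mul_add, mul_sum, sum_congr rfl fun k _ => hab k, sum_range_succ, mul_one]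
  have e1 : (∑ k ∈ range n, ∫ u in (t + (k:ℝ) * T)..(t + ((k + 1 : ℕ) : ℝ) * T), f u) + R - H =
      (∑ k ∈ range n, ((∫ u in (0:ℝ)..T, f (t + k * T + u)) - T)) + (R - (H - n * T)) := by
    rw [sum_sub_distrib, sum_const, card_range, nsmul_eq_mul, sum_congr rfl fun k _ => hg k]
    ring
  rw [e1]
  refine (abs_add_le _ _).trans ?_
  have e2 : |∑ k ∈ range n, ((∫ u in (0:ℝ)..T, f (t + k * T + u)) - T)| ≤
      ∑ k ∈ range n, |(∫ u in (0:ℝ)..T, f (t + k * T + u)) - T| := abs_sum_le_sum_abs _ _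
  have e3 : |R - (H - n * T)| ≤ |(∫ u in (0:ℝ)..T, f (t + n * T + u)) - T| + T := by
    have e4 := le_abs_self ((∫ u in (0:ℝ)..T, f (t + n * T + u)) - T)
    have e5 := abs_nonneg ((∫ u in (0:ℝ)..T, f (t + n * T + u)) - T)
    rw [abs_le]
    constructor
    · nlinarith
    · linarith
  linarith

/-- the mean over windows of length `H` from those of length `T` -/
lemma mean_win {f : ℝ → ℝ} (hf : Continuous f) (hf0 : ∀ t, 0 ≤ f t) {T H a b c d E : ℝ} (hT : 0 < T)
    (hH : T ≤ H) (hca : c ≤ a) (hab : a ≤ b) (hd : b + H ≤ d)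
    (hE : ∫ t in c..d, |(1 / T) * (∫ u in (0:ℝ)..T, f (t + u)) - 1| ≤ E) :
    ∫ t in a..b, |(1 / H) * (∫ u in t..(t + H), f u) - 1| ≤ 2 * E + T / H * (b - a) := by
  have hH0 : 0 < H := lt_of_lt_of_le hT hH
  have hgc : Continuous fun t : ℝ => |(1 / T) * (∫ u in (0:ℝ)..T, f (t + u)) - 1| := by
    have : Continuous fun t : ℝ => ∫ u in (0:ℝ)..T, f (t + u) := by
      refine intervalIntegral.continuous_parametric_intervalIntegral_of_continuous' ?_ _ _
      fun_prop
    exact ((continuous_const.mul this).sub continuous_const).abs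
  have hE0 : 0 ≤ E := le_trans (intervalIntegral.integral_nonneg (by linarith) fun t _ => abs_nonneg _) hE
  set n := ⌊H / T⌋₊ with hn
  have hn1 : (n:ℝ) * T ≤ H := by
    have := Nat.floor_le (show 0 ≤ H / T by positivity)
    rw [← hn, le_div_iff₀ hT] at this
    exact this
  have hpt : ∀ t : ℝ, |(1 / H) * (∫ u in t..(t + H), f u) - 1| ≤
      (T / H) * (∑ k ∈ range (n + 1), |(1 / T) * (∫ u in (0:ℝ)..T, f (t + k * T + u)) - 1| + 1) := by
    intro t
    have h1 := split hf hf0 hT hH0 t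
    have e1 : (1 / H) * (∫ u in t..(t + H), f u) - 1 = (1 / H) * ((∫ u in t..(t + H), f u) - H) := by
      field_simp
    rw [e1, abs_mul, abs_of_pos (by positivity : (0:ℝ) < 1 / H)]
    calc (1 / H) * |(∫ u in t..(t + H), f u) - H| ≤ (1 / H) * (T *
          (∑ k ∈ range (n + 1), |(1 / T) * (∫ u in (0:ℝ)..T, f (t + k * T + u)) - 1| + 1)) :=
          mul_le_mul_of_nonneg_left h1 (by positivity)
      _ = _ := by ring
  have hkc : ∀ k : ℕ, Continuous fun t : ℝ => |(1 / T) * (∫ u in (0:ℝ)..T, f (t + k * T + u)) - 1| :=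
    fun k => hgc.comp (continuous_id.add continuous_const)
  have hk : ∀ k ∈ range (n + 1),
      ∫ t in a..b, |(1 / T) * (∫ u in (0:ℝ)..T, f (t + k * T + u)) - 1| ≤ E := by
    intro k hk
    have hk1 : (k:ℝ) ≤ n := by exact_mod_cast Nat.lt_succ_iff.1 (mem_range.1 hk)
    have hk2 : (k:ℝ) * T ≤ H := le_trans (mul_le_mul_of_nonneg_right hk1 hT.le) hn1
    have hk0 : 0 ≤ (k:ℝ) * T := by positivity
    have h4 := intervalIntegral.integral_comp_add_right (a := a) (b := b)
      (fun s : ℝ => |(1 / T) * (∫ u in (0:ℝ)..T, f (s + u)) - 1|) ((k:ℝ) * T)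
    rw [h4]
    refine le_trans ?_ hE
    exact intervalIntegral.integral_mono_interval (by linarith) (by linarith) (by linarith)
      (Eventually.of_forall fun s => abs_nonneg _) (hgc.intervalIntegrable _ _)
  have hprim : Continuous fun t : ℝ => |(1 / H) * (∫ u in t..(t + H), f u) - 1| :=
    ((continuous_const.mul (WIN.prim_cont hf H)).sub continuous_const).abs
  calc ∫ t in a..b, |(1 / H) * (∫ u in t..(t + H), f u) - 1|
      ≤ ∫ t in a..b, (T / H) *
          (∑ k ∈ range (n + 1), |(1 / T) * (∫ u in (0:ℝ)..T, f (t + k * T + u)) - 1| + 1) := by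
        refine intervalIntegral.integral_mono_on hab (hprim.intervalIntegrable _ _) ?_ fun t _ => hpt t
        exact (continuous_const.mul ((continuous_finsetSum _ fun k _ => hkc k).add
          continuous_const)).intervalIntegrable _ _
    _ = (T / H) * ((∑ k ∈ range (n + 1),
          ∫ t in a..b, |(1 / T) * (∫ u in (0:ℝ)..T, f (t + k * T + u)) - 1|) + (b - a)) := by
        rw [intervalIntegral.integral_const_mul, intervalIntegral.integral_add
          ((continuous_finsetSum _ fun k _ => hkc k).intervalIntegrable _ _)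
          (continuous_const.intervalIntegrable _ _), intervalIntegral.integral_finsetSum
          fun k _ => (hkc k).intervalIntegrable _ _, intervalIntegral.integral_const, smul_eq_mul, mul_one]
    _ ≤ (T / H) * (((n:ℝ) + 1) * E + (b - a)) := by
        refine mul_le_mul_of_nonneg_left ?_ (by positivity)
        have := sum_le_sum hk
        rw [sum_const, card_range, nsmul_eq_mul] at this
        push_cast at this
        linarith
    _ ≤ 2 * E + T / H * (b - a) := by
        have e1 : (T / H) * (((n:ℝ) + 1) * E) ≤ 2 * E := by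
          have e2 : (T / H) * ((n:ℝ) + 1) ≤ 2 := by
            rw [div_mul_eq_mul_div, div_le_iff₀ hH0]
            nlinarith
          calc (T / H) * (((n:ℝ) + 1) * E) = ((T / H) * ((n:ℝ) + 1)) * E := by ring
            _ ≤ 2 * E := mul_le_mul_of_nonneg_right e2 hE0
        rw [mul_add]
        linarith

/-- the mean over windows of a function with bounded translated means -/
lemma mean_b {F : ℝ → ℝ} (hF : Continuous F) (hF0 : ∀ t, 0 ≤ F t) {H a b c d E : ℝ} (hH : 0 < H)
    (hca : c ≤ a) (hab : a ≤ b) (hbd : b ≤ d) (hE : ∀ s, ∫ t in c..d, F (t + s) ≤ E) :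
    ∫ t in a..b, (1 / H) * (∫ u in t..(t + H), F u) ≤ E := by
  have e1 : ∀ t : ℝ, ∫ u in t..(t + H), F u = ∫ s in (0:ℝ)..H, F (t + s) := by
    intro t
    have h := intervalIntegral.integral_comp_add_left (a := 0) (b := H) F t
    rw [h, add_zero]
  simp_rw [e1]
  rw [intervalIntegral.integral_const_mul, swap (F := fun t s => F (t + s)) (by fun_prop)]
  have hc : Continuous fun s : ℝ => ∫ t in a..b, F (t + s) := by
    refine intervalIntegral.continuous_parametric_intervalIntegral_of_continuous' ?_ _ _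
    fun_prop
  have h2 : ∫ s in (0:ℝ)..H, ∫ t in a..b, F (t + s) ≤ ∫ _s in (0:ℝ)..H, E := by
    refine intervalIntegral.integral_mono_on hH.le (hc.intervalIntegrable _ _)
      (continuous_const.intervalIntegrable _ _) fun s _ => ?_
    refine le_trans ?_ (hE s)
    exact intervalIntegral.integral_mono_interval hca hab hbd
      (Eventually.of_forall fun t => hF0 _) ((hF.comp (continuous_id.add continuous_const)).intervalIntegrable _ _)
  rw [intervalIntegral.integral_const, smul_eq_mul, sub_zero] at h2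
  rw [one_div, inv_mul_le_iff₀ hH]
  exact h2

/-- comparison in one window -/
lemma compare {f q Z : ℝ → ℝ} (hf : Continuous f) (hq : Continuous q) (hZ : Continuous Z) (hf0 : ∀ t, 0 ≤ f t)
    {t H η : ℝ} (hH : 0 < H) (hη : 0 < η) (hη1 : η ≤ 1)
    (h1 : ∀ u, t ≤ u → u ≤ t + H → |Z u - f u * q u| ≤ η / 8 * (f u * q u))
    (h2 : |(1 / H) * (∫ u in t..(t + H), f u) - 1| < η / 4)
    (h3 : (1 / H) * (∫ u in t..(t + H), f u * |q u - 1|) < η / 4) :
    |(1 / H) * (∫ u in t..(t + H), Z u) - 1| < η := by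
  have hH1 : (0:ℝ) < 1 / H := by positivity
  have htH : t ≤ t + H := by linarith
  have hfq : Continuous fun u => f u * q u := hf.mul hq
  have e1 : |(∫ u in t..(t + H), Z u) - ∫ u in t..(t + H), f u * q u| ≤
      η / 8 * ∫ u in t..(t + H), f u * q u := by
    rw [← intervalIntegral.integral_sub (hZ.intervalIntegrable _ _) (hfq.intervalIntegrable _ _)]
    refine (intervalIntegral.abs_integral_le_integral_abs htH).trans ?_
    rw [← intervalIntegral.integral_const_mul]
    refine intervalIntegral.integral_mono_on htH ((hZ.sub hfq).abs.intervalIntegrable _ _)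
      ((continuous_const.mul hfq).intervalIntegrable _ _) fun u hu => h1 u hu.1 hu.2
  have e2 : |(∫ u in t..(t + H), f u * q u) - ∫ u in t..(t + H), f u| ≤
      ∫ u in t..(t + H), f u * |q u - 1| := by
    rw [← intervalIntegral.integral_sub (hfq.intervalIntegrable _ _) (hf.intervalIntegrable _ _)]
    refine (intervalIntegral.abs_integral_le_integral_abs htH).trans ?_
    refine intervalIntegral.integral_mono_on htH ((hfq.sub hf).abs.intervalIntegrable _ _)
      ((hf.mul (hq.sub continuous_const).abs).intervalIntegrable _ _) fun u _ => ?_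
    rw [← abs_of_nonneg (hf0 u), ← abs_mul, abs_of_nonneg (hf0 u)]
    refine le_of_eq ?_
    congr 1
    ring
  set IZ := (1 / H) * ∫ u in t..(t + H), Z u with hIZ
  set Ifq := (1 / H) * ∫ u in t..(t + H), f u * q u with hIfq
  set If := (1 / H) * ∫ u in t..(t + H), f u with hIf
  set Ib := (1 / H) * ∫ u in t..(t + H), f u * |q u - 1| with hIb
  have e3 : |IZ - Ifq| ≤ η / 8 * Ifq := by
    have : IZ - Ifq = (1 / H) * ((∫ u in t..(t + H), Z u) - ∫ u in t..(t + H), f u * q u) := by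
      rw [hIZ, hIfq]; ring
    rw [this, abs_mul, abs_of_pos hH1]
    have := mul_le_mul_of_nonneg_left e1 hH1.le
    rw [hIfq]
    linarith
  have e4 : |Ifq - If| ≤ Ib := by
    have : Ifq - If = (1 / H) * ((∫ u in t..(t + H), f u * q u) - ∫ u in t..(t + H), f u) := by
      rw [hIfq, hIf]; ring
    rw [this, abs_mul, abs_of_pos hH1]
    exact mul_le_mul_of_nonneg_left e2 hH1.le
  rw [abs_lt] at h2 ⊢
  rw [abs_le] at e3 e4
  constructor <;> nlinarith [e3.1, e3.2, e4.1, e4.2, h2.1, h2.2]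

/-- the measure of the bad windows -/
lemma abstract {f q Z : ℝ → ℝ} (hf : Continuous f) (hq : Continuous q) (hZ : Continuous Z) (hf0 : ∀ t, 0 ≤ f t)
    {X Xl a0 H T η ε ρ ε1 ε2 ε3 : ℝ} (hX : 0 < X) (hT : 0 < T) (hTH : T ≤ H) (hη : 0 < η) (hη1 : η ≤ 1)
    (ha1 : Xl ≤ a0) (ha0 : 0 ≤ a0) (ha2 : a0 + H ≤ X) (hε : 0 ≤ ε) (haX : a0 ≤ ε * X) (hHX : H ≤ ε * X)
    (hε1 : 0 ≤ ε1) (hε2 : 0 ≤ ε2) (hε3 : 0 ≤ ε3)
    (hρ : T / H ≤ ρ) (Bad : Set ℝ)
    (h1 : ∫ t in Xl..X, |(1 / T) * (∫ u in (0:ℝ)..T, f (t + u)) - 1| ≤ ε1 * X)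
    (h2 : ∀ s, ∫ t in Xl..X, f (t + s) * |q (t + s) - 1| ≤ ε2 * X)
    (h3 : ∀ t, a0 ≤ t → t ≤ X → t ∉ Bad → ∀ u, t ≤ u → u ≤ t + H → |Z u - f u * q u| ≤ η / 8 * (f u * q u))
    (h4 : volume Bad ≤ ENNReal.ofReal (ε3 * X)) :
    volume {t : ℝ | 0 ≤ t ∧ t ≤ X ∧ η ≤ |(1 / H) * (∫ u in t..(t + H), Z u) - 1|} ≤
      ENNReal.ofReal ((2 * ε + ε3 + (2 * ε1 + ρ) / (η / 4) + ε2 / (η / 4)) * X) := by
  have hH0 : 0 < H := lt_of_lt_of_le hT hTH
  have hρ0 : 0 ≤ ρ := le_trans (by positivity) hρ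
  set g1 : ℝ → ℝ := fun t => |(1 / H) * (∫ u in t..(t + H), f u) - 1| with hg1
  set g2 : ℝ → ℝ := fun t => (1 / H) * (∫ u in t..(t + H), f u * |q u - 1|) with hg2
  have hFc : Continuous fun u => f u * |q u - 1| := hf.mul (hq.sub continuous_const).abs
  have hF0 : ∀ u, 0 ≤ f u * |q u - 1| := fun u => mul_nonneg (hf0 u) (abs_nonneg _)
  have hg1c : Continuous g1 := ((continuous_const.mul (WIN.prim_cont hf H)).sub continuous_const).abs
  have hg2c : Continuous g2 := continuous_const.mul (WIN.prim_cont hFc H)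
  have hg20 : ∀ t, 0 ≤ g2 t := fun t =>
    mul_nonneg (by positivity) (intervalIntegral.integral_nonneg (by linarith) fun u _ => hF0 u)
  have m1 : ∫ t in a0..(X - H), g1 t ≤ (2 * ε1 + ρ) * X := by
    have := mean_win hf hf0 (T := T) (H := H) (a := a0) (b := X - H) (c := Xl) (d := X) hT hTH ha1
      (by linarith) (by linarith) h1
    refine this.trans ?_
    have e1 : T / H * (X - H - a0) ≤ ρ * X :=
      mul_le_mul hρ (by linarith) (by linarith) hρ0
    linarith
  have m2 : ∫ t in a0..(X - H), g2 t ≤ ε2 * X :=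
    mean_b hFc hF0 hH0 ha1 (by linarith) (by linarith) h2
  have v1 := markov hg1c (fun t => abs_nonneg _) (a := a0) (b := X - H) (c := η / 4) (by linarith)
    (by positivity) m1
  have v2 := markov hg2c hg20 (a := a0) (b := X - H) (c := η / 4) (by linarith) (by positivity) m2
  have hsub : {t : ℝ | 0 ≤ t ∧ t ≤ X ∧ η ≤ |(1 / H) * (∫ u in t..(t + H), Z u) - 1|} ⊆
      ((((Set.Icc 0 a0 ∪ Set.Icc (X - H) X) ∪ Bad) ∪ {t : ℝ | a0 < t ∧ t ≤ X - H ∧ η / 4 ≤ g1 t}) ∪
        {t : ℝ | a0 < t ∧ t ≤ X - H ∧ η / 4 ≤ g2 t}) := by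
    rintro t ⟨ht0, htX, ht⟩
    by_contra hcon
    simp only [Set.mem_union, Set.mem_Icc, Set.mem_setOf_eq, not_or, not_and, not_le] at hcon
    obtain ⟨⟨⟨⟨c1, c2⟩, c3⟩, c4⟩, c5⟩ := hcon
    have c1' := c1 ht0
    have c2' : t ≤ X - H := by
      by_contra h
      exact absurd (c2 (not_le.1 h).le) (not_lt.2 htX)
    have c4' := c4 c1' c2'
    have c5' := c5 c1' c2'
    have := compare hf hq hZ hf0 hH0 hη hη1 (h3 t c1'.le htX c3) c4' c5'
    exact absurd ht (not_le.2 this)
  have w1 : volume (Set.Icc 0 a0) ≤ ENNReal.ofReal (ε * X) := by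
    rw [Real.volume_Icc]
    exact ENNReal.ofReal_le_ofReal (by linarith)
  have w2 : volume (Set.Icc (X - H) X) ≤ ENNReal.ofReal (ε * X) := by
    rw [Real.volume_Icc]
    exact ENNReal.ofReal_le_ofReal (by linarith)
  refine (measure_mono hsub).trans ?_
  refine (measure_union_le _ _).trans ?_
  have hfin : (2 * ε + ε3 + (2 * ε1 + ρ) / (η / 4) + ε2 / (η / 4)) * X =
      ε * X + ε * X + ε3 * X + (2 * ε1 + ρ) * X / (η / 4) + ε2 * X / (η / 4) := by
    field_simp
    ring
  rw [hfin, ENNReal.ofReal_add (by positivity) (by positivity), ENNReal.ofReal_add (by positivity) (by positivity),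
    ENNReal.ofReal_add (by positivity) (by positivity), ENNReal.ofReal_add (by positivity) (by positivity)]
  refine add_le_add ((measure_union_le _ _).trans (add_le_add ((measure_union_le _ _).trans (add_le_add
    ((measure_union_le _ _).trans (add_le_add w1 w2)) h4)) v1)) v2

/-! ### continuity -/

lemma ec_cont (D : PC) {δ : ℝ} (hδ : 0 ≤ δ) : Continuous fun u : ℝ => ec (1 / 2 + δ + u * I) D := by
  have h : (fun u : ℝ => ec (1 / 2 + δ + u * I) D) =
      fun u : ℝ => ∑ n ∈ D.coeff.support, D.coeff n * (n:ℂ) ^ (-(1 / 2 + δ + u * I : ℂ)) := by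
    funext u
    exact MV.ec_apply _ _
  rw [h]
  refine continuous_finsetSum _ fun n _ => continuous_const.mul ?_
  rcases Nat.eq_zero_or_pos n with h0 | h0
  · have h1 : (fun u : ℝ => ((n:ℕ):ℂ) ^ (-(1 / 2 + δ + u * I : ℂ))) = fun _ => 0 := by
      funext u
      rw [h0, Nat.cast_zero, Complex.zero_cpow]
      intro h2
      have h3 := congrArg Complex.re h2
      simp at h3
      linarith
    rw [h1]
    exact continuous_const
  · have h1 : (n:ℂ) ≠ 0 := by exact_mod_cast h0.ne'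
    exact Continuous.const_cpow (by fun_prop) (Or.inl h1)

lemma WP_cont (α : ℝ) (z Rs : ℕ) (y : ℝ) (J : ℕ) {δ : ℝ} (hδ : 0 ≤ δ) : Continuous (WP α z Rs y J δ) := by
  unfold WP
  exact ((ec_cont _ hδ).norm.pow 2).div_const _

lemma WP_nonneg (α : ℝ) (z Rs : ℕ) (y : ℝ) (J : ℕ) (δ u : ℝ) : 0 ≤ WP α z Rs y J δ u := by
  unfold WP
  positivity

/-! ### small parameters -/

lemma small_pow {κ e : ℝ} (hκ : 0 < κ) (he : 0 < e) : ∃ d : ℝ, 0 < d ∧ ∀ δ : ℝ, 0 < δ → δ ≤ d → δ ^ κ ≤ e := by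
  refine ⟨e ^ (1 / κ), Real.rpow_pos_of_pos he _, fun δ hδ hd => ?_⟩
  calc δ ^ κ ≤ (e ^ (1 / κ)) ^ κ := Real.rpow_le_rpow hδ.le hd hκ.le
    _ = e := by
      rw [← Real.rpow_mul he.le, one_div, inv_mul_cancel₀ hκ.ne', Real.rpow_one]

lemma ev_Xl : ∀ᶠ X : ℝ in atTop, Xl X ≤ X ^ ((9:ℝ) / 10) + 1 := by
  have h := (tendsto_rpow_atTop (show (0:ℝ) < 1 / 10 by norm_num)).eventually_ge_atTop ((4:ℝ) ^ ((4:ℝ) / 5))
  filter_upwards [h, eventually_ge_atTop (1:ℝ)] with X hX h1
  unfold Xl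
  have e1 : (2 * (X + 1)) ^ ((4:ℝ) / 5) ≤ (4 * X) ^ ((4:ℝ) / 5) :=
    Real.rpow_le_rpow (by linarith) (by linarith) (by norm_num)
  have e2 : (4 * X) ^ ((4:ℝ) / 5) = (4:ℝ) ^ ((4:ℝ) / 5) * X ^ ((4:ℝ) / 5) :=
    Real.mul_rpow (by norm_num) (by linarith)
  have e3 : X ^ ((9:ℝ) / 10) = X ^ ((1:ℝ) / 10) * X ^ ((4:ℝ) / 5) := by
    rw [← Real.rpow_add (by linarith)]; norm_num
  have e4 : (4:ℝ) ^ ((4:ℝ) / 5) * X ^ ((4:ℝ) / 5) ≤ X ^ ((1:ℝ) / 10) * X ^ ((4:ℝ) / 5) :=
    mul_le_mul_of_nonneg_right hX (Real.rpow_nonneg (by linarith) _)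
  linarith

lemma ev_a0 {e : ℝ} (he : 0 < e) : ∀ᶠ X : ℝ in atTop, X ^ ((9:ℝ) / 10) + 1 ≤ e * X := by
  have h := (tendsto_rpow_atTop (show (0:ℝ) < 1 / 10 by norm_num)).eventually_ge_atTop (2 / e)
  filter_upwards [h, eventually_ge_atTop (1:ℝ)] with X hX h1
  have e1 : X = X ^ ((1:ℝ) / 10) * X ^ ((9:ℝ) / 10) := by
    rw [← Real.rpow_add (by linarith)]; norm_num
  have e2 : 1 ≤ X ^ ((9:ℝ) / 10) := Real.one_le_rpow h1 (by norm_num)
  have e3 : (2 / e) * X ^ ((9:ℝ) / 10) ≤ X := by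
    calc (2 / e) * X ^ ((9:ℝ) / 10) ≤ X ^ ((1:ℝ) / 10) * X ^ ((9:ℝ) / 10) :=
          mul_le_mul_of_nonneg_right hX (by linarith)
      _ = X := e1.symm
  rw [div_mul_eq_mul_div, div_le_iff₀ he] at e3
  linarith

lemma ev_log (D : ℝ) {e : ℝ} (he : 0 < e) : ∀ᶠ X : ℝ in atTop, Real.log X ^ D ≤ e * X := by
  have h := (isLittleO_log_rpow_rpow_atTop D (show (0:ℝ) < 1 by norm_num)).def he
  filter_upwards [h, eventually_ge_atTop (1:ℝ)] with X hX h1
  rw [Real.norm_of_nonneg (Real.rpow_nonneg (Real.log_nonneg h1) _), Real.rpow_one,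
    Real.norm_of_nonneg (by linarith)] at hX
  exact hX

end Pool.Agent.V5helper47.HM.CORE3
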