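import Pool.Agent.N748.HM.Stm
import Pool.Agent.N748.GC.MOM
import Pool.Agent.N748.GC.COS

set_option autoImplicit false

/-!
# HM/MOM3 : moments of the random Euler product, all exponents (helper47; port of `GC/MOM.lean`)
-/

namespace Pool.Agent.V5helper47.HM

open Finset Filter MeasureTheory Topology Complex
open Pool.Agent.N748.GC Pool.Agent.N748.GC.MOM
open Pool.Agent.N748.HM (S_MOM3)

theorem mom3_of (h : S_MER) : S_MOM3 := by
  intro a ha s hs _
  obtain ⟨K1, hK1, hS1⟩ := S1_le h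
  obtain ⟨K2, hK2, hS2⟩ := S2_le
  have hs0 : 0 < s := by linarith
  have hsa : 0 < s * a := by positivity
  refine ⟨Real.exp (a ^ 2 * s * (s - 1) * K1 + (C1 (s * a) + s * C2 a) * K2), Real.exp_pos _,
    fun z hz => ?_⟩
  have hE : 0 < E0 a (Sm z) := (Real.exp_pos _).trans_le (E0_down a ha z)
  have e1 : ∀ x : UnitAddTorus (Sm z), M0 a (Sm z) x ^ s =
      (∏ p : Sm z, Real.exp (lw (s * a) p (x p))) / E0 a (Sm z) ^ s := by
    intro x
    unfold M0
    rw [Real.div_rpow (Real.exp_pos _).le hE.le, ← Real.exp_mul, ← Real.exp_sum, Finset.sum_mul]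
    congr 2
    exact Finset.sum_congr rfl fun p _ => by rw [← lw_smul]; ring
  have e2 : ∫ x, M0 a (Sm z) x ^ s ∂(HP (Sm z)) = E0 (s * a) (Sm z) / E0 a (Sm z) ^ s := by
    simp_rw [e1]
    rw [integral_div]
    congr 1
    unfold HP
    rw [integral_fintype_prod_eq_prod (fun (p : Sm z) (y : UnitAddCircle) => Real.exp (lw (s * a) p y))]
    rfl
  rw [e2, div_le_iff₀ (by positivity)]
  have hlz : 0 < Real.log z := Real.log_pos (by exact_mod_cast (by omega : 1 < z))
  have h1 := E0_up (s * a) hsa z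
  have h2 : Real.exp (s * (a ^ 2 * S1 z - C2 a * S2 z)) ≤ E0 a (Sm z) ^ s := by
    have := Real.rpow_le_rpow (Real.exp_pos _).le (E0_down a ha z) hs0.le
    rwa [← Real.exp_mul, mul_comm _ s] at this
  refine h1.trans ?_
  have h3 : Real.log z ^ (a ^ 2 * s * (s - 1)) = Real.exp (Real.log (Real.log z) * (a ^ 2 * s * (s - 1))) :=
    Real.rpow_def_of_pos hlz _
  refine le_trans ?_ (mul_le_mul_of_nonneg_left h2 (by positivity))
  rw [h3, ← Real.exp_add, ← Real.exp_add]
  refine Real.exp_le_exp.2 ?_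
  have h4 := hS1 z hz
  have h5 := hS2 z
  have h6 : 0 ≤ a ^ 2 * s * (s - 1) := mul_nonneg (by positivity) (by linarith)
  have h7 : a ^ 2 * s * (s - 1) * S1 z ≤ a ^ 2 * s * (s - 1) * (Real.log (Real.log z) + K1) :=
    mul_le_mul_of_nonneg_left h4 h6
  have h8 : (C1 (s * a) + s * C2 a) * S2 z ≤ (C1 (s * a) + s * C2 a) * K2 :=
    mul_le_mul_of_nonneg_left h5 (by
      have := C1_pos (s * a) hsa
      have := C2_pos a ha
      positivity)
  nlinarith

/-- (MOM3) -/
theorem t_MOM3 : S_MOM3 := mom3_of Pool.Agent.N748.GC.COS.mer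

end Pool.Agent.V5helper47.HM
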